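import Mathlib
import Pool.Agent.P.MP_725651_al.Large
import Pool.Agent.P.MP_725651_al.Small

namespace Pool.Agent.Results.MP_725651_al.Covering

open Pool.Agent.P.MP_725651_al
open scoped Pointwise

theorem cover_finset (c : ℝ) (hc : 0 < c) :
    ∃ μ : ℕ, ∀ (F : Type) [Field F] [Fintype F] [DecidableEq F] (n : ℕ), 1 ≤ n →
      ∀ X : Fin μ → Finset (Matrix (Fin n) (Fin n) F),
        (∀ i, (Fintype.card F : ℝ) ^ (c * (n : ℝ) ^ 2) ≤ ((X i).card : ℝ)) →
        ∃ a b : Fin μ → GL (Fin n) F, ∀ z : Matrix (Fin n) (Fin n) F,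
          ∃ x : Fin μ → Matrix (Fin n) (Fin n) F, (∀ i, x i ∈ X i) ∧
            ∑ i, (a i : Matrix (Fin n) (Fin n) F) * x i * (b i : Matrix (Fin n) (Fin n) F) = z := by
  obtain ⟨μ, hμ⟩ : ∃ μ : ℕ, μ = max ⌈64 / c⌉₊ ⌈(32 : ℝ) ^ (320 / c ^ 2)⌉₊ := ⟨_, rfl⟩
  refine ⟨μ, fun F _ _ _ n hn X hX => ?_⟩
  have hq : 2 ≤ Fintype.card F := Fintype.one_lt_card
  have hq2 : (2 : ℝ) ≤ Fintype.card F := by exact_mod_cast hq
  have hn1 : (1 : ℝ) ≤ n := by exact_mod_cast hn
  set q : ℝ := (Fintype.card F : ℝ) with hqdef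
  have hq0 : 0 < q := by linarith
  have hq1 : 1 ≤ q := by linarith
  set t : ℝ := q ^ (c * n / 16) with ht
  have ht0 : 0 < t := Real.rpow_pos_of_pos hq0 _
  have tpow : ∀ k : ℕ, t ^ k = q ^ (c * n / 16 * k) := fun k => by
    rw [ht, Real.rpow_mul_natCast hq0.le]
  by_cases hbig : 32 ≤ t ^ 2
  · apply large_cover hn X ⌊c * n / 4⌋₊ t ht0 hbig
    · intro i
      refine le_trans ?_ (hX i)
      rw [tpow, ← hqdef, ← Real.rpow_natCast, ← Real.rpow_add hq0]
      apply Real.rpow_le_rpow_of_exponent_le hq1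
      have := Nat.floor_le (a := c * n / 4) (by positivity)
      push_cast
      have h0 : 0 ≤ c * (n : ℝ) ^ 2 := by positivity
      nlinarith
    · rw [tpow, ← hqdef, ← Real.rpow_natCast]
      apply Real.rpow_le_rpow_of_exponent_le hq1
      have := Nat.lt_floor_add_one (c * n / 4)
      push_cast
      linarith
    · rw [tpow, ← hqdef, ← Real.rpow_natCast]
      apply Real.rpow_le_rpow_of_exponent_le hq1
      have h1 : 64 / c ≤ (μ : ℝ) :=
        (Nat.le_ceil _).trans (by rw [hμ]; exact_mod_cast le_max_left _ _)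
      rw [div_le_iff₀ hc] at h1
      push_cast
      nlinarith
  · apply small_cover
    · have h1 : q ^ (c * n / 8) < 32 := by
        have := tpow 2
        rw [this] at hbig
        have e : c * n / 16 * ((2 : ℕ) : ℝ) = c * n / 8 := by push_cast; ring
        rw [e] at hbig
        exact not_le.1 hbig
      have h2 : c * n / 8 < 5 := by
        have h3 : (2 : ℝ) ^ (c * n / 8) ≤ q ^ (c * n / 8) :=
          Real.rpow_le_rpow (by norm_num) hq2 (by positivity)
        have h4 : (2 : ℝ) ^ (c * n / 8) < (2 : ℝ) ^ (5 : ℝ) := by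
          have : (2 : ℝ) ^ (5 : ℝ) = 32 := by norm_num
          linarith
        exact (Real.rpow_lt_rpow_left_iff (by norm_num)).1 h4
      have h5 : (Fintype.card (Matrix (Fin n) (Fin n) F) : ℝ) ≤ (32 : ℝ) ^ (320 / c ^ 2) := by
        rw [card_mat]
        push_cast
        rw [← hqdef, ← Real.rpow_natCast]
        have e : ((n * n : ℕ) : ℝ) = (c * n / 8) * (8 * n / c) := by
          push_cast
          field_simp
        rw [e, Real.rpow_mul hq0.le]
        calc (q ^ (c * n / 8)) ^ (8 * n / c) ≤ (32 : ℝ) ^ (8 * n / c) :=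
              Real.rpow_le_rpow (by positivity) h1.le (by positivity)
          _ ≤ _ := by
              apply Real.rpow_le_rpow_of_exponent_le (by norm_num)
              rw [div_le_div_iff₀ hc (by positivity)]
              nlinarith
      have h6 : (32 : ℝ) ^ (320 / c ^ 2) ≤ (μ : ℝ) :=
        (Nat.le_ceil _).trans (by rw [hμ]; exact_mod_cast le_max_right _ _)
      exact_mod_cast h5.trans h6
    · intro i
      have h1 : 1 < q ^ (c * (n : ℝ) ^ 2) := Real.one_lt_rpow (by linarith) (by positivity)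
      have h2 : (1 : ℝ) < (X i).card := h1.trans_le (hX i)
      exact_mod_cast h2

/-- For every `c > 0` there is `μ` such that any `μ` subsets of `M_n(F_q)` of size at least
`q^(c n^2)` can be twisted by invertible matrices so that their sumset is all of `M_n(F_q)`. -/
theorem result (c : ℝ) (hc : 0 < c) :
    ∃ μ : ℕ, ∀ (F : Type) [Field F] [Fintype F] (n : ℕ), 1 ≤ n →
      ∀ X : Fin μ → Set (Matrix (Fin n) (Fin n) F),
        (∀ i, (Fintype.card F : ℝ) ^ (c * (n : ℝ) ^ 2) ≤ ((X i).ncard : ℝ)) →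
        ∃ a b : Fin μ → GL (Fin n) F,
          ∑ i, (fun x => (a i : Matrix (Fin n) (Fin n) F) * x *
            (b i : Matrix (Fin n) (Fin n) F)) '' X i = Set.univ := by
  classical
  obtain ⟨μ, hμ⟩ := cover_finset c hc
  refine ⟨μ, fun F _ _ n hn X hX => ?_⟩
  obtain ⟨a, b, hab⟩ := hμ F n hn (fun i => (X i).toFinset)
    (fun i => by rw [← Set.ncard_eq_toFinset_card']; exact hX i)
  refine ⟨a, b, Set.eq_univ_of_forall fun z => ?_⟩
  obtain ⟨x, hx, hz⟩ := hab z
  rw [Set.mem_fintype_sum]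
  exact ⟨_, fun i => ⟨x i, Set.mem_toFinset.1 (hx i), rfl⟩, hz⟩

end Pool.Agent.Results.MP_725651_al.Covering
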